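import Pool.Agent.J4H77.PE.One

/-!
# One-sided bounds in Piltz's divisor problem

The exponents `α⁺_k`, `α⁻_k` of one-sided bounds `Δ_k(x) ≤ C x^a`, `Δ_k(x) ≥ - C x^a` tend to the abscissa `σ_L` of the
Lindelöf hypothesis, and `α_k ≤ σ_L` for all `k`. So one-sided bounds for infinitely many `k` imply two-sided bounds, and
the conjectured mean square, for all `k`.
-/

set_option autoImplicit false

open Filter Topology MeasureTheory Set

namespace Pool.Agent.Results.MP_bc6037_nt.OneSidedBounds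

open Pool.Agent.J4H77.PE

/-- One-sided bounds for infinitely many `k` are enough. -/
theorem result (P : ℕ → Polynomial ℝ) (Δ : ℕ → ℝ → ℝ) (α αp αm β : ℕ → ℝ) (σL : ℝ)
    (hΔ : ∀ k : ℕ, ∀ x : ℝ, Δ k x = (∑ n ∈ Finset.Icc 1 ⌊x⌋₊, (((ArithmeticFunction.zeta ^ k : ArithmeticFunction ℕ) n : ℕ) : ℝ))
      - x * (P k).eval (Real.log x))
    (hP : ∀ k : ℕ, 2 ≤ k → ∃ θ C : ℝ, θ < 1 ∧ ∀ x : ℝ, 1 ≤ x → |Δ k x| ≤ C * x ^ θ)
    (hα : ∀ k : ℕ, α k = sInf {a : ℝ | ∃ C : ℝ, ∀ x : ℝ, 1 ≤ x → |Δ k x| ≤ C * x ^ a})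
    (hαp : ∀ k : ℕ, αp k = sInf {a : ℝ | ∃ C : ℝ, ∀ x : ℝ, 1 ≤ x → Δ k x ≤ C * x ^ a})
    (hαm : ∀ k : ℕ, αm k = sInf {a : ℝ | ∃ C : ℝ, ∀ x : ℝ, 1 ≤ x → -(C * x ^ a) ≤ Δ k x})
    (hβ : ∀ k : ℕ, β k = sInf {b : ℝ | ∃ C : ℝ, ∀ x : ℝ, 1 ≤ x → ∫ y in (1 : ℝ)..x, (Δ k y) ^ 2 ≤ C * x ^ (1 + 2 * b)})
    (hσ : σL = sInf {σ : ℝ | 0 < σ ∧ ∀ ε : ℝ, 0 < ε → ∃ C : ℝ, ∀ t : ℝ, 1 ≤ t →
      ‖riemannZeta (σ + t * Complex.I)‖ ≤ C * t ^ ε}) :
    -- one-sided bounds for infinitely many `k`, each with its own side, imply two-sided bounds for all `k`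
    (∀ a : ℝ, (∃ᶠ k : ℕ in atTop, ∀ ε : ℝ, 0 < ε →
        (∃ C : ℝ, ∀ x : ℝ, 1 ≤ x → Δ k x ≤ C * x ^ (a + ε)) ∨ (∃ C : ℝ, ∀ x : ℝ, 1 ≤ x → -(C * x ^ (a + ε)) ≤ Δ k x)) →
      σL ≤ a ∧ (∀ k : ℕ, 2 ≤ k → α k ≤ a) ∧ (a = 1 / 2 → ∀ k : ℕ, 2 ≤ k → β k = ((k : ℝ) - 1) / (2 * k))) ∧
    -- the limits
    Tendsto αp atTop (𝓝 σL) ∧ Tendsto αm atTop (𝓝 σL) ∧ Tendsto α atTop (𝓝 σL) ∧ (∀ k : ℕ, 2 ≤ k → α k ≤ σL) := by
  have hE : ∀ k : ℕ, Δ k = err k (P k) := fun k => funext fun x => hΔ k x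
  have hS : ∀ k : ℕ, 2 ≤ k → Sav k (P k) := by
    intro k hk
    obtain ⟨θ, C, h1, h2⟩ := hP k hk
    rw [hE] at h2
    exact ⟨θ, C, h1, h2⟩
  have hsL : σL = sL := by
    rw [hσ]
    rfl
  have hB : ∀ k : ℕ, β k = bet k (P k) := by
    intro k
    rw [hβ k]
    unfold bet BetaSet
    rw [hE]
  -- the abscissa is at least one half
  have hmono2 : ∀ l : ℕ, 2 < l → (1 - 1 / (l : ℝ)) * bet 2 (P 2) ≤ (1 - 1 / ((2 : ℕ) : ℝ)) * bet l (P l) :=
    fun l hl => bet_mono le_rfl hl (hS 2 le_rfl) (hS l (by omega))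
  have hhalf : 1 / 2 ≤ σL := by
    rw [hsL]
    have hlim0 : Tendsto (fun l : ℕ => 1 / (l : ℝ)) atTop (𝓝 0) := tendsto_one_div_atTop_nhds_zero_nat
    have h1 : ∀ᶠ l : ℕ in atTop, (1 - 1 / (l : ℝ)) * bet 2 (P 2) ≤ (1 - 1 / ((2 : ℕ) : ℝ)) * sL := by
      filter_upwards [eventually_gt_atTop 2] with l hl
      refine (hmono2 l hl).trans ?_
      have h2 := bet_le_sL (k := l) (by omega) (hS l (by omega))
      have : (0 : ℝ) ≤ 1 - 1 / ((2 : ℕ) : ℝ) := by norm_num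
      gcongr
    have h2 : Tendsto (fun l : ℕ => (1 - 1 / (l : ℝ)) * bet 2 (P 2)) atTop (𝓝 ((1 - 0) * bet 2 (P 2))) :=
      (tendsto_const_nhds.sub hlim0).mul_const _
    have h3 := le_of_tendsto h2 h1
    have h4 := bet_lower le_rfl (hS 2 le_rfl)
    norm_num at h3 h4
    linarith
  -- the three sets
  have down : ∀ k : ℕ, 2 ≤ k → ∀ s a A : ℝ, (s = 1 ∨ s = -1) → (∀ x : ℝ, 1 ≤ x → s * err k (P k) x ≤ A * x ^ a) →
      Conv k (P k) (max a 0) := by
    intro k hk s a A hs h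
    obtain ⟨θ, C, hg⟩ := (hS k hk).good
    exact conv_of_side (by omega) hg hs h
  have hup : ∀ k : ℕ, 2 ≤ k → ∀ τ : ℝ, σL < τ → ∃ C : ℝ, ∀ x : ℝ, 1 ≤ x → |err k (P k) x| ≤ C * x ^ τ := by
    intro k hk τ hτ
    obtain ⟨θ, C, hg⟩ := (hS k hk).good
    rw [hsL] at hτ
    obtain ⟨σ, h1, h2⟩ := exists_lt_of_csInf_lt ⟨2, Lind_two⟩ hτ
    exact alpha_of_Lind (by omega) hg h1 h2
  have cup : ∀ k : ℕ, ∀ a b : ℝ, a ≤ b → Conv k (P k) a → Conv k (P k) b := by
    intro k a b hab h σ hσ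
    exact h σ (by linarith)
  have pos_of : ∀ k : ℕ, 4 ≤ k → ∀ s a A : ℝ, (s = 1 ∨ s = -1) → (∀ x : ℝ, 1 ≤ x → s * err k (P k) x ≤ A * x ^ a) → 0 ≤ a := by
    intro k hk s a A hs h
    by_contra hcon
    push Not at hcon
    have h1 := down k (by omega) s a A hs h
    rw [max_eq_right hcon.le] at h1
    have h2 := conv_lower (by omega) (hS k (by omega)) le_rfl h1
    have hk0 : (4 : ℝ) ≤ k := by exact_mod_cast hk
    have h3 : 1 / ((k : ℝ) - 1) ≤ 1 / 3 := one_div_le_one_div_of_le (by norm_num) (by linarith)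
    linarith
  -- sides of the three conditions
  have side_abs : ∀ k : ℕ, ∀ a A : ℝ, (∀ x : ℝ, 1 ≤ x → |err k (P k) x| ≤ A * x ^ a) →
      ∀ x : ℝ, 1 ≤ x → 1 * err k (P k) x ≤ A * x ^ a := by
    intro k a A h x hx
    have := le_abs_self (err k (P k) x)
    have := h x hx
    linarith
  -- one argument for the three exponents
  have key : ∀ (e : ℕ → ℝ) (S : ℕ → Set ℝ), (∀ k, e k = sInf (S k)) →
      (∀ k : ℕ, 2 ≤ k → ∀ τ : ℝ, σL < τ → τ ∈ S k) →
      (∀ k : ℕ, ∀ a ∈ S k, ∃ s A : ℝ, (s = 1 ∨ s = -1) ∧ ∀ x : ℝ, 1 ≤ x → s * err k (P k) x ≤ A * x ^ a) →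
      Tendsto e atTop (𝓝 σL) := by
    intro e S he hmem hside
    have hbdd : ∀ k : ℕ, 4 ≤ k → BddBelow (S k) := by
      intro k hk
      refine ⟨0, fun a ha => ?_⟩
      obtain ⟨s, A, hs, h⟩ := hside k a ha
      exact pos_of k hk s a A hs h
    have hle : ∀ k : ℕ, 4 ≤ k → e k ≤ σL := by
      intro k hk
      rw [he k]
      apply le_of_forall_pos_le_add
      intro ε hε
      exact csInf_le (hbdd k hk) (hmem k (by omega) _ (by linarith))
    rw [Metric.tendsto_atTop]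
    intro ε hε
    by_contra hcon
    push Not at hcon
    have hfr : ∃ᶠ k : ℕ in atTop, Conv k (P k) (max (σL - ε) 0) := by
      rw [frequently_atTop]
      intro N
      obtain ⟨k, hk, hd⟩ := hcon (max N 4)
      have hk1 : N ≤ k := (le_max_left _ _).trans hk
      have hk4 : 4 ≤ k := (le_max_right _ _).trans hk
      refine ⟨k, hk1, ?_⟩
      have h1 := hle k hk4
      rw [Real.dist_eq, abs_sub_comm, abs_of_nonneg (by linarith)] at hd
      -- the value is at most `σL - ε`; take an element close to it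
      intro σ hσ
      have h2 : e k < σ := by
        have := le_max_left (σL - ε) 0
        linarith
      rw [he k] at h2
      obtain ⟨a, ha, ha2⟩ := exists_lt_of_csInf_lt ⟨σL + 1, hmem k (by omega) _ (by linarith)⟩ h2
      obtain ⟨s, A, hs, h⟩ := hside k a ha
      have h3 := down k (by omega) s a A hs h
      apply h3 σ
      apply max_lt ha2
      exact lt_of_le_of_lt (le_max_right _ _) hσ
    have h1 := sL_le_of_conv hS (le_max_right _ _) hfr
    rw [← hsL] at h1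
    rcases max_cases (σL - ε) 0 with h | h
    · rw [h.1] at h1
      linarith
    · rw [h.1] at h1
      linarith
  have tα : Tendsto α atTop (𝓝 σL) := by
    refine key α _ hα ?_ ?_
    · intro k hk τ hτ
      obtain ⟨C, hC⟩ := hup k hk τ hτ
      exact ⟨C, by rw [hE]; exact hC⟩
    · rintro k a ⟨C, hC⟩
      rw [hE] at hC
      exact ⟨1, C, Or.inl rfl, side_abs k a C hC⟩
  have tp : Tendsto αp atTop (𝓝 σL) := by
    refine key αp _ hαp ?_ ?_
    · intro k hk τ hτ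
      obtain ⟨C, hC⟩ := hup k hk τ hτ
      exact ⟨C, fun x hx => by rw [hE]; exact (le_abs_self _).trans (hC x hx)⟩
    · rintro k a ⟨C, hC⟩
      rw [hE] at hC
      exact ⟨1, C, Or.inl rfl, fun x hx => by rw [one_mul]; exact hC x hx⟩
  have tm : Tendsto αm atTop (𝓝 σL) := by
    refine key αm _ hαm ?_ ?_
    · intro k hk τ hτ
      obtain ⟨C, hC⟩ := hup k hk τ hτ
      refine ⟨C, fun x hx => ?_⟩
      rw [hE]
      have h1 := hC x hx
      have h2 := neg_abs_le (err k (P k) x)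
      linarith
    · rintro k a ⟨C, hC⟩
      rw [hE] at hC
      refine ⟨-1, C, Or.inr rfl, fun x hx => ?_⟩
      have := hC x hx
      linarith
  have hαL : ∀ k : ℕ, 2 ≤ k → α k ≤ σL := by
    intro k hk
    have hbdd : BddBelow {a : ℝ | ∃ C : ℝ, ∀ x : ℝ, 1 ≤ x → |Δ k x| ≤ C * x ^ a} := by
      refine ⟨0, ?_⟩
      rintro a ⟨C, hC⟩
      by_contra hcon
      push Not at hcon
      rw [hE] at hC
      have hk0 : (2 : ℝ) ≤ k := by exact_mod_cast hk
      obtain ⟨θ, B, hg⟩ := (hS k hk).good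
      have hC0 : 0 ≤ C := by
        have := (abs_nonneg _).trans (hC 1 le_rfl)
        simpa using this
      have h1 : (1 / 8 : ℝ) ∈ BetaSet k (P k) := by
        have hg2 : Good k (P k) (1 / 8) C := by
          refine ⟨by norm_num, by norm_num, hC0, fun x hx => (hC x hx).trans ?_⟩
          exact mul_le_mul_of_nonneg_left (Real.rpow_le_rpow_of_exponent_le hx (by linarith)) hC0
        exact beta_of_point hg2
      have h2 := beta_lower hk (hS k hk) h1
      rw [div_le_div_iff₀ (by linarith) (by norm_num)] at h2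
      linarith
    rw [hα k]
    apply le_of_forall_pos_le_add
    intro ε hε
    obtain ⟨C, hC⟩ := hup k hk (σL + ε) (by linarith)
    exact csInf_le hbdd ⟨C, by rw [hE]; exact hC⟩
  refine ⟨?_, tp, tm, tα, hαL⟩
  intro a ha
  have ha0 : 0 ≤ a := by
    by_contra hcon
    push Not at hcon
    obtain ⟨k, hk, hk4⟩ := (ha.and_eventually (eventually_ge_atTop 4)).exists
    have h1 := hk (-a / 2) (by linarith)
    rcases h1 with ⟨C, hC⟩ | ⟨C, hC⟩
    · have := pos_of k hk4 1 (a + -a / 2) C (Or.inl rfl) (fun x hx => by rw [one_mul, ← hE]; exact hC x hx)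
      linarith
    · have := pos_of k hk4 (-1) (a + -a / 2) C (Or.inr rfl) (fun x hx => by
        rw [← hE]
        have := hC x hx
        linarith)
      linarith
  have hfr : ∃ᶠ k : ℕ in atTop, Conv k (P k) a := by
    refine (ha.and_eventually (eventually_ge_atTop 2)).mono ?_
    rintro k ⟨hk, hk2⟩ σ hσ
    have hε : 0 < (σ - a) / 2 := by linarith
    have hmax : max (a + (σ - a) / 2) 0 < σ := max_lt (by linarith) (by linarith)
    rcases hk _ hε with ⟨C, hC⟩ | ⟨C, hC⟩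
    · exact down k hk2 1 _ C (Or.inl rfl) (fun x hx => by rw [one_mul, ← hE]; exact hC x hx) σ hmax
    · exact down k hk2 (-1) _ C (Or.inr rfl) (fun x hx => by
        rw [← hE]
        have := hC x hx
        linarith) σ hmax
  have h1 := sL_le_of_conv hS ha0 hfr
  rw [← hsL] at h1
  refine ⟨h1, fun k hk => (hαL k hk).trans h1, fun ha2 k hk => ?_⟩
  rw [hB k]
  apply le_antisymm _ (bet_lower hk (hS k hk))
  -- the mean square: compare with large `l`
  have hk0 : (2 : ℝ) ≤ k := by exact_mod_cast hk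
  have hlim0 : Tendsto (fun l : ℕ => 1 / (l : ℝ)) atTop (𝓝 0) := tendsto_one_div_atTop_nhds_zero_nat
  have h2 : ∀ᶠ l : ℕ in atTop, (1 - 1 / (l : ℝ)) * bet k (P k) ≤ (1 - 1 / (k : ℝ)) * (1 / 2) := by
    filter_upwards [eventually_gt_atTop k] with l hl
    refine (bet_mono hk hl (hS k hk) (hS l (by omega))).trans ?_
    have h3 : bet l (P l) ≤ 1 / 2 := by
      have := bet_le_sL (k := l) (by omega) (hS l (by omega))
      rw [← hsL] at this
      linarith
    have h4 : 1 / (k : ℝ) ≤ 1 := by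
      rw [div_le_one (by linarith)]
      linarith
    exact mul_le_mul_of_nonneg_left h3 (by linarith)
  have h3 : Tendsto (fun l : ℕ => (1 - 1 / (l : ℝ)) * bet k (P k)) atTop (𝓝 ((1 - 0) * bet k (P k))) :=
    (tendsto_const_nhds.sub hlim0).mul_const _
  have h4 := le_of_tendsto h3 h2
  rw [sub_zero, one_mul] at h4
  have hk1 : (k : ℝ) ≠ 0 := by linarith
  have e : (1 - 1 / (k : ℝ)) * (1 / 2) = ((k : ℝ) - 1) / (2 * k) := by field_simp
  rwa [e] at h4

end Pool.Agent.Results.MP_bc6037_nt.OneSidedBounds
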