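import Pool.Agent.J4H77.PC.Uni
import Pool.Agent.Results.MP_d0fd9b_nt.MixingBySmallPrimes

/-!
# Mixing by small primes in the class group of the field of the square root of `p`, for ALL primes `p`
near random sums

Let `x 0, ..., x (k - 1)` be independent random integers with `|x j| ≤ B b ^ j`, of which only a positive
proportion of the scales `j` is known not to be concentrated on one short interval (the other `x j` are
arbitrary, for example constants), and let `Y` be an arbitrary set of at most `b ^ (κ k)` integers of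
absolute value at most `B b ^ k`. With a probability of at least `1 - b ^ (-κ k)`, ALL the primes `p`
at a distance of at most `b ^ (κ k)` from one of the integers `y + x 0 + ... + x (k - 1)`, `y ∈ Y`, have
the property `Mixing` of `MixingBySmallPrimes`: the classes of the prime ideals of prime norm
`≤ (log p) ^ A` of the field `K` of the square root of `p` generate the class group, random products of
`C log p / log log p` of them are equidistributed in it, and `h(p) = 1` if and only if they are all trivial.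
(For example `x j = b ^ j d j` with independent digits `d j`, of which a proportion `δ` is random with at
least two values, and all the others are prescribed.)

Proof. There are at most `x ^ θ` exceptional primes up to `x`, for every `θ > 0` if `A` is large
(`MixingBySmallPrimes`, the large sieve over the characters of the class groups). A sum of independent
random integers hits an interval of length `2 b ^ (κ k)` with a probability of at most `exp (- c k)`:
choose a set of separated scales among the given ones, condition on all the other variables, and bound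
the conditional probabilities from the largest scale to the smallest one. The union bound over the
exceptional primes and over `Y` gives the result.
-/

set_option autoImplicit false

namespace Pool.Agent.Results.MP_d0fd9b_nt.RandomSums

open Finset
open Pool.Agent.Results.MP_d0fd9b_nt.MixingBySmallPrimes (Mixing)

/-- some prime `p` at a distance of at most `R` from `v` is an exception -/
def BadNear (A C R : ℝ) (v : ℤ) : Prop :=
  ∃ p : ℕ, p.Prime ∧ |(p : ℝ) - v| ≤ R ∧ ¬ Mixing Set.univ A C p

open Classical in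
/-- The probability of the event `E` if `x 0, ..., x (k - 1)` are independent random integers, where `x j` takes
its values in the finite set `s j`, and the value `x` with the probability `p j x`. -/
noncomputable def Prob (k : ℕ) (s : ℕ → Finset ℤ) (p : ℕ → ℤ → ℝ) (E : (Fin k → ℤ) → Prop) : ℝ :=
  ∑ x ∈ Fintype.piFinset (fun j : Fin k => s j), if E x then ∏ j : Fin k, p j (x j) else 0

open Classical in
/-- The law of `x j`, `j < k`, is a probability on integers of absolute value at most `B b ^ j`, and, for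
`j ∈ J`, no interval `[y, y + b ^ j / B]` has a probability larger than `1 - η`. -/
def Law (b B k : ℕ) (η : ℝ) (J : Finset ℕ) (s : ℕ → Finset ℤ) (p : ℕ → ℤ → ℝ) : Prop :=
  (∀ j < k, (∀ x ∈ s j, 0 ≤ p j x ∧ |x| ≤ (B : ℤ) * (b : ℤ) ^ j) ∧ ∑ x ∈ s j, p j x = 1) ∧
  ∀ j ∈ J, ∀ y : ℤ, ∑ x ∈ (s j).filter (fun x => y ≤ x ∧ (B : ℤ) * (x - y) ≤ (b : ℤ) ^ j), p j x ≤
    1 - η

section proof

open Pool.Agent.J4H77.PC

theorem prob_eq (k : ℕ) (s : ℕ → Finset ℤ) (p : ℕ → ℤ → ℝ) (E : (Fin k → ℤ) → Prop) :
    Prob k s p E = Ex (fun j : Fin k => s j) (fun j : Fin k => p j) fun x => ch (E x) := by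
  unfold Prob Ex ch
  refine sum_congr rfl fun x _ => ?_
  beta_reduce
  by_cases h : E x
  · rw [if_pos h, if_pos h, mul_one]
  · rw [if_neg h, if_neg h, mul_zero]

open Classical in
/-- few exceptional primes -/
theorem few_primes (θ : ℝ) (hθ : 0 < θ) : ∃ A C : ℝ, 1 < A ∧ 0 < C ∧ ∃ x₀ : ℕ, ∀ x : ℕ, x₀ ≤ x →
    (((range (x + 1)).filter fun p => p.Prime ∧ ¬ Mixing Set.univ A C p).card : ℝ) ≤
      (x : ℝ) ^ θ := by
  have hA : (1 : ℝ) < 1 + 4 / θ := by
    have : 0 < 4 / θ := by positivity
    linarith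
  obtain ⟨κ, hκ, hd, h⟩ := MixingBySmallPrimes.result (1 + 4 / θ) (θ / 4) hA (by positivity)
  obtain ⟨C, hC, h1⟩ := h Set.univ hd
  have e1 : 2 / (1 + 4 / θ - 1) + θ / 4 = 3 * θ / 4 := by
    rw [add_sub_cancel_left]
    field_simp
    ring
  rw [e1] at h1
  have ht : Filter.Tendsto (fun x : ℕ => (x : ℝ) ^ (θ / 4)) Filter.atTop Filter.atTop :=
    (tendsto_rpow_atTop (by positivity)).comp tendsto_natCast_atTop_atTop
  obtain ⟨x₀, hx₀⟩ := Filter.eventually_atTop.1 (ht.eventually_ge_atTop C)
  refine ⟨1 + 4 / θ, C, hA, hC, x₀ + 1, fun x hx => ?_⟩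
  have hx1 : (1 : ℝ) ≤ x := by exact_mod_cast (by omega : 1 ≤ x)
  obtain ⟨h2, h3⟩ := h1 x hx1
  have h4 : (((range (x + 1)).filter fun p => p.Prime ∧ ¬ Mixing Set.univ (1 + 4 / θ) C p) :
      Set ℕ) = {p : ℕ | p.Prime ∧ (p : ℝ) ≤ x ∧ ¬ Mixing Set.univ (1 + 4 / θ) C p} := by
    ext p
    simp only [coe_filter, mem_range, Set.mem_setOf_eq, Nat.cast_le, Nat.lt_succ_iff]
    tauto
  rw [← h4, Set.ncard_coe_finset] at h3
  refine h3.trans ?_
  calc C * (x : ℝ) ^ (3 * θ / 4) ≤ (x : ℝ) ^ (θ / 4) * (x : ℝ) ^ (3 * θ / 4) :=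
        mul_le_mul_of_nonneg_right (hx₀ x (by omega)) (by positivity)
    _ = (x : ℝ) ^ θ := by
        rw [← Real.rpow_add (by linarith)]
        congr 1
        ring

end proof

/-- Let `b ≥ 2`, `B ≥ 1`, `δ > 0` and `η > 0`. There are `κ > 0`, `A` and `C` such that the following
holds for all large `k` and all sets `J` of at least `δ k` scales `j < k`. Let `x 0, ..., x (k - 1)` be
independent random integers with `|x j| ≤ B b ^ j`, such that for `j ∈ J` no interval of the length
`b ^ j / B` has a probability larger than `1 - η`, and let `Y` be a set of at most `b ^ (κ k)` integers of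
absolute value at most `B b ^ k`. With a probability of at least `1 - b ^ (- κ k)`, ALL the primes `p` at
a distance of at most `b ^ (κ k)` from one of the integers `y + x 0 + ... + x (k - 1)`, `y ∈ Y`, have the
property `Mixing Set.univ A C p`. -/
theorem result (b B : ℕ) (hb : 2 ≤ b) (hB : 1 ≤ B) (δ η : ℝ) (hδ : 0 < δ) (hη : 0 < η) :
    ∃ κ A C : ℝ, 0 < κ ∧ 1 < A ∧ 0 < C ∧
      ∃ k₀ : ℕ, ∀ k : ℕ, k₀ ≤ k → ∀ J : Finset ℕ, (∀ j ∈ J, j < k) → δ * k ≤ J.card →
        ∀ (s : ℕ → Finset ℤ) (p : ℕ → ℤ → ℝ), Law b B k η J s p →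
          ∀ Y : Finset ℤ, (Y.card : ℝ) ≤ (b : ℝ) ^ (κ * k) →
            (∀ y ∈ Y, |y| ≤ (B : ℤ) * (b : ℤ) ^ k) →
            Prob k s p (fun x => ∃ y ∈ Y, BadNear A C ((b : ℝ) ^ (κ * k)) (y + ∑ j, x j)) ≤
              (b : ℝ) ^ (-(κ * k)) := by
  classical
  obtain ⟨κ, θ, hκ, hθ, h1⟩ := Pool.Agent.J4H77.PC.few b B hb hB δ η hδ hη
  obtain ⟨A, C, hA, hC, x₀, hx₀⟩ := few_primes θ hθ
  refine ⟨κ, A, C, hκ, hA, hC, ?_⟩
  obtain ⟨k₁, hk₁⟩ := h1 (fun p => p.Prime ∧ ¬ Mixing Set.univ A C p) x₀ (fun x hx => by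
    have h3 := hx₀ x hx
    convert h3)
  refine ⟨k₁, fun k hk J hJ hJc s p hlaw Y hY1 hY2 => ?_⟩
  have h3 := hk₁ k hk J hJ hJc Y hY1 hY2 s p hlaw.1 (fun j hj y => by
    have h4 := hlaw.2 j hj y
    rw [sum_filter] at h4
    exact h4)
  rw [prob_eq]
  refine le_trans (Pool.Agent.J4H77.PC.Ex_mono (s := fun j : Fin k => s j)
    (p := fun j : Fin k => p j) (fun j a ha => ((hlaw.1 j j.2).1 a ha).1) fun x _ =>
      Pool.Agent.J4H77.PC.ch_mono ?_) h3
  rintro ⟨y, hy, q, hq, hd, hn⟩
  exact ⟨y, hy, q, ⟨hq, hn⟩, hd⟩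

end Pool.Agent.Results.MP_d0fd9b_nt.RandomSums
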